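import Pool.Agent.R64.SepColor
import Pool.Agent.R64.SepRandom3

/-!
# MP_873812_co: separation choice number of linear uniform hypergraphs

For every `r ≥ 6` there are linear `r`-uniform hypergraphs of arbitrarily large average degree
whose separation choice number is at most three. So the answer to Q1 is negative.
-/

set_option autoImplicit false

namespace Pool.Agent.Results.MP_873812_co.BoundedSeparation

open Finset Filter

variable {V : Type} [Fintype V] [DecidableEq V]

/-- `r`-uniform. A hypergraph on `V` is given by its finite set of edges. -/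
def Uniform (r : ℕ) (E : Finset (Finset V)) : Prop := ∀ e ∈ E, e.card = r

/-- Linear: any two distinct vertices lie in at most one common edge. -/
def Linear (E : Finset (Finset V)) : Prop :=
  ∀ u v, u ≠ v → ∀ e ∈ E, ∀ e' ∈ E, u ∈ e → v ∈ e → u ∈ e' → v ∈ e' → e = e'

/-- The average degree `r |E| / |V|` of an `r`-uniform hypergraph. -/
noncomputable def avgDeg (r : ℕ) (E : Finset (Finset V)) : ℝ := (r * E.card : ℝ) / Fintype.card V

/-- Vertices in a common edge have at most one common colour. -/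
def Separated (E : Finset (Finset V)) (L : V → Finset ℕ) : Prop :=
  ∀ u v, u ≠ v → (∃ e ∈ E, u ∈ e ∧ v ∈ e) → (L u ∩ L v).card ≤ 1

/-- No edge has all of its vertices in one colour. -/
def Proper (E : Finset (Finset V)) (φ : V → ℕ) : Prop := ∀ e ∈ E, ¬ ∃ c, ∀ v ∈ e, φ v = c

/-- The separation choice number. -/
noncomputable def chSep (E : Finset (Finset V)) : ℕ :=
  sInf {k | ∀ L : V → Finset ℕ, (∀ v, k ≤ (L v).card) → Separated E L →
    ∃ φ : V → ℕ, (∀ v, φ v ∈ L v) ∧ Proper E φ}

/-- The adaptable choice number. -/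
noncomputable def chAd (E : Finset (Finset V)) : ℕ :=
  sInf {k | ∀ L : V → Finset ℕ, (∀ v, k ≤ (L v).card) → ∀ α : Finset V → ℕ,
    ∃ φ : V → ℕ, (∀ v, φ v ∈ L v) ∧ ∀ e ∈ E, ¬ ∀ v ∈ e, φ v = α e}

/-- The assertion of Q1. -/
def Q1 : Prop :=
  ∀ r : ℕ, 3 ≤ r → ∃ f g : ℝ → ℝ, Tendsto f atTop atTop ∧ Tendsto g atTop atTop ∧
    ∀ (V : Type) [Fintype V] [DecidableEq V] [Nonempty V] (E : Finset (Finset V)),
      Uniform r E → Linear E →
        f (avgDeg r E) ≤ chSep E ∧ g (avgDeg r E) ≤ chAd E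

/-- Linear `r`-uniform hypergraphs of large average degree with separation choice number at most
three. -/
theorem bounded (r : ℕ) (hr : 6 ≤ r) (D : ℕ) : ∃ (n : ℕ) (E : Finset (Finset (Fin n))),
    0 < n ∧ Uniform r E ∧ Linear E ∧ (D : ℝ) ≤ avgDeg r E ∧ chSep E ≤ 3 := by
  classical
  obtain ⟨n, A, B, E, hn, hA, hAB, h1, h2, h3, h4, h5⟩ := R64.SepRandom.exists_final r D hr
  refine ⟨n, E, hn, h1, ?_, ?_, ?_⟩
  · intro u v huv e he e' he' h6 h7 h8 h9
    by_contra hne
    have h10 := h2 e he e' he' hne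
    have h11 : ({u, v} : Finset (Fin n)) ⊆ e ∩ e' := by
      intro x hx
      rcases mem_insert.mp hx with rfl | hx
      · exact mem_inter.mpr ⟨h6, h8⟩
      · rw [mem_singleton.mp hx]
        exact mem_inter.mpr ⟨h7, h9⟩
    have h12 := card_le_card h11
    rw [card_pair huv] at h12
    omega
  · rw [avgDeg, Fintype.card_fin, le_div_iff₀ (by exact_mod_cast hn)]
    exact_mod_cast h3
  · refine Nat.sInf_le ?_
    intro L hL hsep
    have h6 : ∀ v, ∃ M ⊆ L v, M.card = 3 := fun v => exists_subset_card_eq (hL v)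
    choose M hM1 hM2 using h6
    obtain ⟨φ, h7, h8⟩ := R64.SepColor.colour E M hM2 A B hA
      (by rw [Fintype.card_fin]; exact hAB)
      (fun u v huv he => le_trans (card_le_card (inter_subset_inter (hM1 u) (hM1 v)))
        (hsep u v huv he)) h4 h5
    exact ⟨φ, fun v => hM1 v (h7 v), h8⟩

/-- **Main theorem**: the answer to Q1 is negative; for every `r ≥ 6` the separation choice number
is bounded by three on linear `r`-uniform hypergraphs of arbitrarily large average degree. -/
theorem result :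
    (∀ r : ℕ, 6 ≤ r → ∀ D : ℕ, ∃ (n : ℕ) (E : Finset (Finset (Fin n))),
      0 < n ∧ Uniform r E ∧ Linear E ∧ (D : ℝ) ≤ avgDeg r E ∧ chSep E ≤ 3) ∧ ¬ Q1 := by
  refine ⟨fun r hr D => bounded r hr D, fun hQ => ?_⟩
  obtain ⟨f, g, hf, _, hall⟩ := hQ 6 (by norm_num)
  obtain ⟨x0, hx0⟩ := (hf.eventually_gt_atTop (3 : ℝ)).exists_forall_of_atTop
  obtain ⟨D, hD⟩ := exists_nat_ge x0
  obtain ⟨n, E, hn, h1, h2, h3, h4⟩ := bounded 6 le_rfl D
  haveI : Nonempty (Fin n) := ⟨⟨0, hn⟩⟩
  have h5 := (hall (Fin n) E h1 h2).1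
  have h6 := hx0 (avgDeg 6 E) (hD.trans h3)
  have h7 : (chSep E : ℝ) ≤ 3 := by exact_mod_cast h4
  linarith

end Pool.Agent.Results.MP_873812_co.BoundedSeparation
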